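import Pool.Agent.Work.MP_7eec5e_nt.GG.All

/-!
# MP_7eec5e_nt: the GUE hypothesis, the Gram points and Fujii's law

`x : ι → ℝ` is a locally finite family of real numbers. `rho n` is the `n`-th correlation function of
the sine process, `rho n y = det (sin (π (y_i - y_j)) / (π (y_i - y_j)))`.

* `Gue x`: the correlations of all orders of the differences are those of the sine process (GUE
  hypothesis).
* `Uni x`: the correlation sums seen from a uniformly distributed point `u` of `[0, U]`.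
* `Smp x a h`: the correlation sums seen from the points `a + h j`, `j < M`.

THEOREM. For every locally finite family the three hypotheses are equivalent (for every `a ≥ 0` and every
`h > 0`). For the zeros `1/2 + i γ` of zeta on the critical line, unfolded as `ϑ(γ)/π`, the Gram
points `g_j` are unfolded to the integers `j`; so the GUE hypothesis holds if and only if the zeros seen
from the Gram points have the correlations of the sine process, and it implies Fujii's law: for every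
`k` the proportion of the first `M` Gram intervals which contain exactly `k` zeros tends to the limit of
the probability that an interval of length `2 π / N` contains exactly `k` eigenvalue angles of a Haar
distributed random unitary matrix.

Nothing about zeta is proved unconditionally.
-/

set_option autoImplicit false

namespace Pool.Agent.Results.MP_7eec5e_nt.GramFromGUE

open MeasureTheory Filter Topology Finset

/-! ## The sine process and locally finite families -/

/-- the sine kernel `sin (π t) / (π t)`, `1` for `t = 0` -/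
noncomputable def sk (t : ℝ) : ℝ := Real.sinc (Real.pi * t)

/-- the `n`-th correlation function of the sine process, `det (sk (y i - y j))` -/
noncomputable def rho (n : ℕ) (y : Fin n → ℝ) : ℝ :=
  Matrix.det (Matrix.of fun i j : Fin n => sk (y i - y j))

/-- continuous functions with compact support -/
def CC (n : ℕ) (f : (Fin n → ℝ) → ℝ) : Prop := Continuous f ∧ HasCompactSupport f

/-- locally finite families (a family of real numbers stands for a multiset) -/
def LF {ι : Type} (x : ι → ℝ) : Prop := ∀ R : ℝ, {i | |x i| ≤ R}.Finite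

/-- the sum of `f (x_(s 0) - u, ..., x_(s (n-1)) - u)` over all `n`-tuples `s` of different members -/
noncomputable def W {ι : Type} (x : ι → ℝ) (n : ℕ) (f : (Fin n → ℝ) → ℝ) (u : ℝ) : ℝ :=
  ∑' s : Fin n ↪ ι, f fun a => x (s a) - u

/-- the sum over all `(n + 1)`-tuples `s` of different members with `0 ≤ x_(s 0) < U` of
`f (x_(s 1) - x_(s 0), ..., x_(s n) - x_(s 0))` -/
noncomputable def Dd {ι : Type} (x : ι → ℝ) (n : ℕ) (f : (Fin n → ℝ) → ℝ) (U : ℝ) : ℝ := by
  classical
  exact ∑' s : Fin (n + 1) ↪ ι,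
    if 0 ≤ x (s 0) ∧ x (s 0) < U then f fun a => x (s a.succ) - x (s 0) else 0

/-- the GUE hypothesis for the family `x`: the correlations of all orders of the differences are those
of the sine process (`n = 0`: the family has density `1`) -/
def Gue {ι : Type} (x : ι → ℝ) : Prop := ∀ (n : ℕ) (f : (Fin n → ℝ) → ℝ), CC n f →
  Tendsto (fun U : ℝ => U⁻¹ * Dd x n f U) atTop
    (𝓝 (∫ y : Fin n → ℝ, f y * rho (n + 1) (Fin.cons 0 y)))

/-- the correlations seen from a uniformly distributed point of `[0, U]` -/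
def Uni {ι : Type} (x : ι → ℝ) : Prop := ∀ (n : ℕ) (f : (Fin n → ℝ) → ℝ), CC n f →
  Tendsto (fun U : ℝ => U⁻¹ * ∫ u in (0 : ℝ)..U, W x n f u) atTop
    (𝓝 (∫ y : Fin n → ℝ, f y * rho n y))

/-- the correlations seen from the points `a + h j` -/
def Smp {ι : Type} (x : ι → ℝ) (a h : ℝ) : Prop := ∀ (n : ℕ) (f : (Fin n → ℝ) → ℝ), CC n f →
  Tendsto (fun M : ℕ => (M : ℝ)⁻¹ * ∑ j ∈ range M, W x n f (a + h * j)) atTop
    (𝓝 (∫ y : Fin n → ℝ, f y * rho n y))

/-! ## The unitary group -/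

/-- the density of the eigenvalue angles of a Haar distributed unitary matrix -/
noncomputable def pN (N : ℕ) (θ : Fin N → ℝ) : ℝ :=
  (∏ j : Fin N, ∏ l ∈ Finset.Ioi j,
    ‖Complex.exp (θ j * Complex.I) - Complex.exp (θ l * Complex.I)‖ ^ 2) /
      ((2 * Real.pi) ^ N * N.factorial)

/-- the probability that exactly `k` angles are in `J = [b, b + 2 π / N)` -/
noncomputable def EU (N k : ℕ) (b : ℝ) : ℝ :=
  (N.choose k : ℝ) * ∫ θ in {θ : Fin N → ℝ | ∀ i : Fin N,
    θ i ∈ (if (i : ℕ) < k then Set.Ico b (b + 2 * Real.pi / N)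
      else Set.Ico (-Real.pi) Real.pi \ Set.Ico b (b + 2 * Real.pi / N))}, pN N θ

/-! ## The zeta function -/

/-- the Riemann-Siegel theta function: the continuous branch of
`arg Γ(1/4 + i t/2) - (t/2) log π` with the value `0` at `0` -/
def IsTheta (ϑ : ℝ → ℝ) : Prop := Continuous ϑ ∧ ϑ 0 = 0 ∧
  ∀ t : ℝ, Complex.Gamma (1 / 4 + t / 2 * Complex.I) =
    ‖Complex.Gamma (1 / 4 + t / 2 * Complex.I)‖ *
      Complex.exp ((ϑ t + t / 2 * Real.log Real.pi : ℝ) * Complex.I)

/-- the Gram points: `g n` is the unique `t > 7` with `ϑ t = n π` -/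
def IsGram (ϑ : ℝ → ℝ) (g : ℕ → ℝ) : Prop :=
  ∀ n : ℕ, 7 < g n ∧ ϑ (g n) = n * Real.pi ∧ ∀ t : ℝ, 7 < t → ϑ t = n * Real.pi → t = g n

/-- the order of vanishing of zeta at `1/2 + i t` -/
noncomputable def mult (t : ℝ) : ℕ := analyticOrderNatAt riemannZeta (1 / 2 + t * Complex.I)

/-- the zeros `1/2 + i γ`, `γ > 0`, of zeta, with multiplicity -/
abbrev CZ : Type := Σ t : {t : ℝ // 0 < t}, Fin (mult (t : ℝ))

/-- the unfolded zeros `ϑ(γ) / π` -/
noncomputable def xz (ϑ : ℝ → ℝ) (z : CZ) : ℝ := ϑ (z.1 : ℝ) / Real.pi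

/-- the correlations of the unfolded zeros, seen from the unfolded Gram points -/
def GramCor (ϑ : ℝ → ℝ) (g : ℕ → ℝ) : Prop := ∀ (n : ℕ) (f : (Fin n → ℝ) → ℝ), CC n f →
  Tendsto (fun M : ℕ => (M : ℝ)⁻¹ * ∑ j ∈ range M, W (xz ϑ) n f (ϑ (g j) / Real.pi)) atTop
    (𝓝 (∫ y : Fin n → ℝ, f y * rho n y))

/-- the proportion of the first `M` Gram intervals `[g j, g (j + 1))` which contain exactly `k` zeros -/
noncomputable def Gp (g : ℕ → ℝ) (M k : ℕ) : ℝ := by
  classical
  exact (M : ℝ)⁻¹ * (((range M).filter fun j =>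
    {z : CZ | g j ≤ (z.1 : ℝ) ∧ (z.1 : ℝ) < g (j + 1)}.encard = (k : ℕ∞)).card : ℝ)

/-- THE THEOREM -/
theorem result :
    (∀ (ι : Type) (x : ι → ℝ), LF x →
      (Gue x ↔ Uni x) ∧ ∀ a h : ℝ, 0 ≤ a → 0 < h → (Gue x ↔ Smp x a h)) ∧
    ∀ (ϑ : ℝ → ℝ) (g : ℕ → ℝ), IsTheta ϑ → IsGram ϑ g →
      (Gue (xz ϑ) ↔ GramCor ϑ g) ∧
      (Gue (xz ϑ) → ∀ k : ℕ, ∃ e : ℝ,
        (∀ b : ℕ → ℝ, (∀ᶠ N : ℕ in atTop, -Real.pi ≤ b N ∧ b N + 2 * Real.pi / N ≤ Real.pi) →
          Tendsto (fun N : ℕ => EU N k (b N)) atTop (𝓝 e)) ∧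
        Tendsto (fun M : ℕ => Gp g M k) atTop (𝓝 e)) := by
  obtain ⟨h1, h2⟩ := Pool.Agent.Work.MP_7eec5e_nt.GG.all
  refine ⟨fun ι x hx => ⟨Pool.Agent.Work.MP_7eec5e_nt.GG.main_uni
    Pool.Agent.Work.MP_7eec5e_nt.GG.alB1 Pool.Agent.Work.MP_7eec5e_nt.GG.alB2 x hx,
    fun a h ha hh => h1 ι x hx a h ha hh⟩, fun ϑ g hϑ hg => ?_⟩
  obtain ⟨h3, h4⟩ := h2 ϑ g ⟨hϑ.1, hϑ.2.1, hϑ.2.2⟩ hg
  have h5 : GramCor ϑ g ↔ Smp (xz ϑ) 0 1 := by
    have h6 : ∀ j : ℕ, ϑ (g j) / Real.pi = 0 + 1 * (j : ℝ) := by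
      intro j
      rw [(hg j).2.1, mul_div_assoc, div_self Real.pi_ne_zero, mul_one, zero_add, one_mul]
    unfold GramCor Smp
    simp only [h6]
  refine ⟨?_, fun h k => h4 h k⟩
  rw [h5]
  exact h3

end Pool.Agent.Results.MP_7eec5e_nt.GramFromGUE
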